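import Pool.Agent.R410.SQ.Strata2

/-!
# MP_919cc8_ag: the intersection of `V_{g,f}` with the hyperelliptic locus is smooth at all the points of `a`-number one

Let `k` be a field of characteristic `p > 2`, `f < g`. Let `F` be the Hasse-Witt map of the universal
curve `y² = (x - a_0) ⋯ (x - a_{2g})`, and let `Z_f` be the scheme of the configurations `(a_0, …, a_{2g})` of
distinct points of the affine line over which all the `(f + 1) × (f + 1)` minors of the matrix of the iterate
`F^(g-f)` vanish. The points of `Z_f` are the curves of `p`-rank at most `f`.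

We prove that at each point of `Z_f` with `a`-number one (corank of the Hasse-Witt matrix) the Jacobian matrix
of these minors has rank at least `g - f`, the codimension of the `p`-rank stratum. So `Z_f` is smooth at
these points. The pullback of the scheme-theoretic intersection of `V_{g,f}` and `H_g` is a closed subscheme
of `Z_f` with the same points; hence it is equal to `Z_f` near such a point, and smooth, in particular
reduced.

The proof (`Pool/Agent/R410/SQ`): to first order in the direction `h` the twisted factors of the iterate are
constant, so that the minors vanish to first order if and only if `v M_1 u = 0`, where `v` spans the left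
kernel of the Hasse-Witt matrix `M` and `u` runs through the kernel of `F^(g-f)` on the dual space, which has
dimension `g - f`. We have `v M_1 u = - ((p-1)/2) ∑ h_i Q_u(a_i) P_v(a_i)`, and these linear forms in `h` are
linearly independent, as `P_v(a_i)` is, up to the factor `-((p-1)/2) f'(a_i)`, the value at `a_i` of a nonzero
polynomial of degree less than `g`.
-/

set_option autoImplicit false

set_option maxHeartbeats 400000

open Polynomial

namespace Pool.Agent.Results.MP_919cc8_ag.ANumberOne

/-- The polynomial `(x - a_0) ⋯ (x - a_{n-1})`. -/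
noncomputable def branch {R : Type*} [CommRing R] {n : ℕ} (a : Fin n → R) : R[X] :=
  ∏ i, (X - C (a i))

/-- The Hasse-Witt (Cartier-Manin) matrix of `y² = f(x)`: the entry with indices `i, j` (from `0`)
is the coefficient of `x ^ (p (i + 1) - (j + 1))` in `f ^ ((p - 1) / 2)`, written as the coefficient of
`x ^ (p (i + 1))` in `x ^ (j + 1) f ^ ((p - 1) / 2)`. The Hasse-Witt map is `v ↦ v^(p) M` on row vectors. -/
noncomputable def hasseWitt {R : Type*} [CommRing R] (p g : ℕ) (f : R[X]) :
    Matrix (Fin g) (Fin g) R :=
  Matrix.of fun i j => (X ^ ((j : ℕ) + 1) * f ^ ((p - 1) / 2)).coeff (p * ((i : ℕ) + 1))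

/-- The matrix `M^(p^(n-1)) ⋯ M^(p) M` of the `n`-th iterate of the Frobenius-linear map `v ↦ v^(p) M` on
row vectors, where the exponents `(p^i)` mean that the entries are raised to this power. -/
noncomputable def iterate {R : Type*} [CommRing R] {g : ℕ} (p : ℕ) (M : Matrix (Fin g) (Fin g) R) :
    ℕ → Matrix (Fin g) (Fin g) R
  | 0 => 1
  | n + 1 => ((iterate p M n).map fun x => x ^ p) * M

/-- The minor with the rows `I` and the columns `J` of the matrix of the iterate `F^(g-f)` of the
Hasse-Witt map of the universal curve, a polynomial in the branch points. -/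
noncomputable def minor (k : Type*) [Field k] (p g f : ℕ) (I J : Fin (f + 1) → Fin g) :
    MvPolynomial (Fin (2 * g + 1)) k :=
  ((iterate p (hasseWitt p g (branch fun i : Fin (2 * g + 1) => MvPolynomial.X i))
    (g - f)).submatrix I J).det

/-- The gradient of a polynomial at a point. -/
noncomputable def gradient {k : Type*} [Field k] {n : ℕ} (a : Fin n → k)
    (F : MvPolynomial (Fin n) k) : Fin n → k :=
  fun i => MvPolynomial.eval a (MvPolynomial.pderiv i F)

theorem iterate_eq {R : Type*} [CommRing R] {g : ℕ} (p : ℕ) (M : Matrix (Fin g) (Fin g) R) (n : ℕ) :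
    iterate p M n = Pool.Agent.R410.SQ.it p M n := by
  induction n with
  | zero => rfl
  | succ n ih =>
    show ((iterate p M n).map fun x => x ^ p) * M =
      ((Pool.Agent.R410.SQ.it p M n).map fun x => x ^ p) * M
    rw [ih]

theorem hasseWitt_eq {R : Type*} [CommRing R] (p g : ℕ) (f : R[X]) :
    hasseWitt p g f = Pool.Agent.R410.OR.hw p g f := rfl

theorem branch_eq {R : Type*} [CommRing R] {n : ℕ} (a : Fin n → R) :
    branch a = Pool.Agent.R410.SQ.fR a := rfl

/-- **The Jacobian matrix of the equations of the `p`-rank stratum has rank at least the codimension at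
all the points of `a`-number one.** -/
theorem result (k : Type*) [Field k] (p : ℕ) [Fact p.Prime] [CharP k p] (hp : p ≠ 2)
    (g f : ℕ) (hf : f < g) (a : Fin (2 * g + 1) → k) (ha : Function.Injective a)
    -- the `a`-number is one
    (h1 : (hasseWitt p g (branch a)).rank + 1 = g)
    -- the `p`-rank is at most `f`
    (h2 : (iterate p (hasseWitt p g (branch a)) (g - f)).rank ≤ f) :
    g - f ≤ Module.finrank k (Submodule.span k (Set.range
      fun IJ : (Fin (f + 1) → Fin g) × (Fin (f + 1) → Fin g) =>
        gradient a (minor k p g f IJ.1 IJ.2))) := by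
  simp only [iterate_eq, hasseWitt_eq, branch_eq] at h1 h2
  have h3 := Pool.Agent.R410.SQ.strata (n := g - f) hp (by omega) (by omega) (by omega) ha
    (le_of_eq h1.symm) (by rw [Nat.sub_sub_self hf.le]; exact h2)
  have h4 : g - (g - f) = f := Nat.sub_sub_self hf.le
  rw [h4] at h3
  have h5 : (fun IJ : (Fin (f + 1) → Fin g) × (Fin (f + 1) → Fin g) =>
        gradient a (minor k p g f IJ.1 IJ.2)) =
      fun IJ : (Fin (f + 1) → Fin g) × (Fin (f + 1) → Fin g) => fun i =>
        MvPolynomial.eval a (MvPolynomial.pderiv i
          (((Pool.Agent.R410.SQ.it p (Pool.Agent.R410.OR.hw p g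
            (Pool.Agent.R410.SQ.fR fun i => MvPolynomial.X i)) (g - f)).submatrix IJ.1 IJ.2).det)) := by
    funext IJ
    unfold gradient minor
    simp only [iterate_eq, hasseWitt_eq, branch_eq]
  rw [h5]
  exact h3

end Pool.Agent.Results.MP_919cc8_ag.ANumberOne
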