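import Pool.Agent.R410.SQ.AStrata

/-!
# MP_919cc8_ag: the codimension of the strata of the `a`-number in the hyperelliptic locus

Let `k` be a field of characteristic `p > 2`, and let `M` be the Hasse-Witt matrix of the universal curve
`y² = (x - a_0) ⋯ (x - a_{2g})`. At each point with distinct `a_i` at which `M` has corank `r ≥ 1` (the `a`-number
of the curve is `r`) the gradients of the `(g - r + 1) × (g - r + 1)` minors of `M` span a space of
dimension at least `2 r - 1`. So the locus of the curves of `a`-number `r` has codimension at least `2 r - 1`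
in the hyperelliptic locus at all its points; the curves of `a`-number at least two have codimension at
least three. As `V_{g,g-2} ∩ H_g` has pure codimension two, all its generic points have `a`-number one, and
by `ANumberOne` the intersection is smooth on a dense open subset: `V_{g,g-2} ∩ H_g` is generically reduced.

The proof (`Pool/Agent/R410/SQ`): the minors vanish to first order in the direction `h` only if
`∑ h_i Q_u(a_i) Q_w(a_i) / f'(a_i) = 0` for all `u, w` in the kernel of `M`, where `Q_u` is the polynomial of
degree less than `g` with the coefficients `u`. The products `Q_u Q_w` span a space of polynomials of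
degree at most `2 g - 2` and of dimension at least `2 r - 1`.
-/

set_option autoImplicit false
set_option maxHeartbeats 400000

open Polynomial

namespace Pool.Agent.Results.MP_919cc8_ag.ANumberStrata

/-- The polynomial `(x - a_0) ⋯ (x - a_{n-1})`. -/
noncomputable def branch {R : Type*} [CommRing R] {n : ℕ} (a : Fin n → R) : R[X] :=
  ∏ i, (X - C (a i))

/-- The Hasse-Witt (Cartier-Manin) matrix of `y² = f(x)`: the entry with indices `i, j` (from `0`)
is the coefficient of `x ^ (p (i + 1) - (j + 1))` in `f ^ ((p - 1) / 2)`, written as the coefficient of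
`x ^ (p (i + 1))` in `x ^ (j + 1) f ^ ((p - 1) / 2)`. -/
noncomputable def hasseWitt {R : Type*} [CommRing R] (p g : ℕ) (f : R[X]) :
    Matrix (Fin g) (Fin g) R :=
  Matrix.of fun i j => (X ^ ((j : ℕ) + 1) * f ^ ((p - 1) / 2)).coeff (p * ((i : ℕ) + 1))

/-- The minor with the rows `I` and the columns `J` of the Hasse-Witt matrix of the universal curve, a
polynomial in the branch points. -/
noncomputable def minor (k : Type*) [Field k] (p g : ℕ) {t : ℕ} (I J : Fin t → Fin g) :
    MvPolynomial (Fin (2 * g + 1)) k :=
  ((hasseWitt p g (branch fun i : Fin (2 * g + 1) => MvPolynomial.X i)).submatrix I J).det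

/-- The gradient of a polynomial at a point. -/
noncomputable def gradient {k : Type*} [Field k] {n : ℕ} (a : Fin n → k)
    (F : MvPolynomial (Fin n) k) : Fin n → k :=
  fun i => MvPolynomial.eval a (MvPolynomial.pderiv i F)

theorem hasseWitt_eq {R : Type*} [CommRing R] (p g : ℕ) (f : R[X]) :
    hasseWitt p g f = Pool.Agent.R410.OR.hw p g f := rfl

theorem branch_eq {R : Type*} [CommRing R] {n : ℕ} (a : Fin n → R) :
    branch a = Pool.Agent.R410.SQ.fR a := rfl

/-- **The gradients of the equations of the stratum of `a`-number `r` span a space of dimension at least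
`2 r - 1` at each of its points.** -/
theorem result (k : Type*) [Field k] (p : ℕ) [Fact p.Prime] [CharP k p] (hp : p ≠ 2)
    (g r : ℕ) (hr : 1 ≤ r) (a : Fin (2 * g + 1) → k) (ha : Function.Injective a)
    (h : (hasseWitt p g (branch a)).rank + r = g) :
    2 * r - 1 ≤ Module.finrank k (Submodule.span k (Set.range
      fun IJ : (Fin (g - r + 1) → Fin g) × (Fin (g - r + 1) → Fin g) =>
        gradient a (minor k p g IJ.1 IJ.2))) := by
  simp only [hasseWitt_eq, branch_eq] at h
  have h3 := Pool.Agent.R410.SQ.astrata hp (by omega) hr ha h
  have h5 : (fun IJ : (Fin (g - r + 1) → Fin g) × (Fin (g - r + 1) → Fin g) =>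
        gradient a (minor k p g IJ.1 IJ.2)) =
      fun IJ : (Fin (g - r + 1) → Fin g) × (Fin (g - r + 1) → Fin g) => fun i =>
        MvPolynomial.eval a (MvPolynomial.pderiv i
          (((Pool.Agent.R410.OR.hw p g
            (Pool.Agent.R410.SQ.fR fun i => MvPolynomial.X i)).submatrix IJ.1 IJ.2).det)) := by
    funext IJ
    unfold gradient minor
    simp only [hasseWitt_eq, branch_eq]
  rw [h5]
  exact h3

end Pool.Agent.Results.MP_919cc8_ag.ANumberStrata
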