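import Pool.Agent.R410.SQ.Red

/-!
# MP_919cc8_ag: the multiplicity of the non-ordinary divisor of the hyperelliptic locus is the `a`-number

Let `k` be a field of characteristic `p > 2`, `g ≥ 1`, and let `D` be the determinant of the Hasse-Witt matrix
of `y² = (x - a_0) ⋯ (x - a_{2g})`, a polynomial in the branch points. We prove that the multiplicity of `D = 0`
at each point with distinct coordinates (the least order of vanishing of `D` along a line through the
point) is the `a`-number of the curve, the corank of its Hasse-Witt matrix. In particular `D = 0` is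
smooth exactly at the points of `a`-number one.
-/

set_option autoImplicit false
set_option maxHeartbeats 400000

open Polynomial

namespace Pool.Agent.Results.MP_919cc8_ag.Multiplicity

/-- The polynomial `(x - a_0) ⋯ (x - a_{n-1})`. -/
noncomputable def branch {R : Type*} [CommRing R] {n : ℕ} (a : Fin n → R) : R[X] :=
  ∏ i, (X - C (a i))

/-- The Hasse-Witt (Cartier-Manin) matrix of `y² = f(x)`: the entry with indices `i, j` (from `0`)
is the coefficient of `x ^ (p (i + 1) - (j + 1))` in `f ^ ((p - 1) / 2)`, written as the coefficient of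
`x ^ (p (i + 1))` in `x ^ (j + 1) f ^ ((p - 1) / 2)`. -/
noncomputable def hasseWitt {R : Type*} [CommRing R] (p g : ℕ) (f : R[X]) :
    Matrix (Fin g) (Fin g) R :=
  Matrix.of fun i j => (X ^ ((j : ℕ) + 1) * f ^ ((p - 1) / 2)).coeff (p * ((i : ℕ) + 1))

/-- The `a`-number: the corank of the Hasse-Witt matrix. -/
noncomputable def aNumber {k : Type*} [Field k] (p g : ℕ) (a : Fin (2 * g + 1) → k) : ℕ :=
  g - (hasseWitt p g (branch a)).rank

/-- The restriction of the determinant of the Hasse-Witt matrix of the universal curve to the line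
`a + t h`, a polynomial in `t`. -/
noncomputable def alongLine {k : Type*} [Field k] (p g : ℕ) (a h : Fin (2 * g + 1) → k) : k[X] :=
  MvPolynomial.aeval (fun i => (C (a i) + X * C (h i) : k[X]))
    (hasseWitt p g (branch fun i => (MvPolynomial.X i : MvPolynomial (Fin (2 * g + 1)) k))).det

theorem hasseWitt_eq {R : Type*} [CommRing R] (p g : ℕ) (f : R[X]) :
    hasseWitt p g f = Pool.Agent.R410.OR.hw p g f := rfl

theorem branch_eq {R : Type*} [CommRing R] {n : ℕ} (a : Fin n → R) :
    branch a = Pool.Agent.R410.SQ.fR a := rfl

/-- **The multiplicity of the non-ordinary divisor at a point is the `a`-number.** -/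
theorem result (k : Type*) [Field k] (p : ℕ) [Fact p.Prime] [CharP k p] (hp : p ≠ 2)
    (g : ℕ) (hg : 1 ≤ g) (a : Fin (2 * g + 1) → k) (ha : Function.Injective a) :
    (∀ h : Fin (2 * g + 1) → k, X ^ aNumber p g a ∣ alongLine p g a h) ∧
      ∃ h : Fin (2 * g + 1) → k, ¬ X ^ (aNumber p g a + 1) ∣ alongLine p g a h := by
  unfold aNumber alongLine
  simp only [hasseWitt_eq, branch_eq]
  have h := Pool.Agent.R410.SQ.mult hp hg ha
  unfold Pool.Agent.R410.SQ.dd at h
  exact h

end Pool.Agent.Results.MP_919cc8_ag.Multiplicity
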