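import Pool.Agent.R410.SQ.Red

/-!
# MP_919cc8_ag: the intersection of `V_{g,g-1}` with the hyperelliptic locus is reduced

Let `k` be an algebraically closed field of characteristic `p > 2`, `g ≥ 1`. The scheme of the ordered
configurations `(a_0, …, a_{2g})` of `2 g + 1` distinct points of the affine line over `k` is the spectrum of
the localization of `k[a_0, …, a_{2g}]` away from the product of the differences. It maps to the
hyperelliptic locus `H_g` by `y² = (x - a_0) ⋯ (x - a_{2g})`, and this map is smooth and surjective. The
pullback of the Hasse invariant (the determinant of the Hasse-Witt map) is the determinant of the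
Cartier-Manin matrix.

We prove that the closed subscheme defined by the vanishing of this determinant is reduced, for all `g ≥ 1`
and all `p > 2`.

The proof (`Pool/Agent/R410/SQ`):

* `Ker.lean`, `Bij.lean`: over any field of characteristic `p` and for distinct `a_i`, let `M` be the
  Cartier-Manin matrix. The elements `u` of the right kernel are the polynomials `Q_u` of degree `< g` such
  that `Q_u dx / y` is exact. For `v` in the left kernel let `V = ∑ v_k x^(p (g - 1 - k))` and let `P` be the
  quotient of `V f^((p-1)/2)` by `x^(p g)`. Then `f P' - ((p-1)/2) f' P` is a polynomial of degree `< g` in the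
  right kernel, and this gives an isomorphism of the left kernel with the right kernel. The derivative
  `M_1` of `M` in the direction `h` satisfies `v M_1 u = - ((p-1)/2) ∑ h_i Q_u(a_i) P(a_i)`.
* `Order.lean`: let `M(t) = M_0 + t M_1 + …`, and let `r` be the corank of `M_0`. Then `t^(r+1)` divides
  `det M(t)` if and only if there is `u ≠ 0` with `M_0 u = 0` and `M_1 u` in the image of `M_0`.
* `Line.lean`: the form `v M_1 u` of the kernels is of rank at most one if `h` is a coordinate direction,
  so that the order of the determinant is at least `r + 1` if `r ≥ 2`; and it is nondegenerate for some `h`, so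
  that the order of the determinant is `r`.
* `Gen.lean`: let `q` be an irreducible polynomial whose square divides the determinant. Apply this at the
  generic point of `q = 0`; a coordinate direction is transversal to `q = 0` as `k` is perfect.
-/

set_option autoImplicit false

open Polynomial

namespace Pool.Agent.Results.MP_919cc8_ag.NonOrdinaryDivisor

/-- The Hasse-Witt (Cartier-Manin) matrix of `y² = f(x)`: the entry with indices `i, j` (from `0`)
is the coefficient of `x ^ (p (i + 1) - (j + 1))` in `f ^ ((p - 1) / 2)`, written as the coefficient of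
`x ^ (p (i + 1))` in `x ^ (j + 1) f ^ ((p - 1) / 2)`. -/
noncomputable def hasseWitt {R : Type*} [CommRing R] (p g : ℕ) (f : R[X]) :
    Matrix (Fin g) (Fin g) R :=
  Matrix.of fun i j => (X ^ ((j : ℕ) + 1) * f ^ ((p - 1) / 2)).coeff (p * ((i : ℕ) + 1))

/-- The polynomial `(x - a_0) ⋯ (x - a_{2g})` over the ring `k[a_0, …, a_{2g}]`. -/
noncomputable def universal (k : Type*) [Field k] (g : ℕ) : (MvPolynomial (Fin (2 * g + 1)) k)[X] :=
  ∏ i, (X - C (MvPolynomial.X i))

/-- The product of the differences `a_i - a_j`, `i ≠ j`, in `k[a_0, …, a_{2g}]`. -/
noncomputable def differences (k : Type*) [Field k] (g : ℕ) : MvPolynomial (Fin (2 * g + 1)) k :=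
  ∏ i, ∏ j ∈ Finset.univ.erase i, (MvPolynomial.X i - MvPolynomial.X j)

/-- **The non-ordinary divisor of the hyperelliptic locus is reduced.** -/
theorem result (k : Type*) [Field k] [IsAlgClosed k] (p : ℕ) [Fact p.Prime] [CharP k p]
    (hp : p ≠ 2) (g : ℕ) (hg : 1 ≤ g) :
    IsReduced (Localization.Away (differences k g) ⧸
      Ideal.span {algebraMap (MvPolynomial (Fin (2 * g + 1)) k)
        (Localization.Away (differences k g)) (hasseWitt p g (universal k g)).det}) := by
  classical
  refine Pool.Agent.R410.SQ.isReduced_of_sq (D := (hasseWitt p g (universal k g)).det)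
    (Pool.Agent.R410.SQ.dd_ne_zero hp hg) fun q hq hqd => ?_
  obtain ⟨i, j, hij, h⟩ := Pool.Agent.R410.SQ.main hp hg hq hqd
  refine h.trans ?_
  unfold differences
  exact (Finset.dvd_prod_of_mem _ (Finset.mem_erase.2 ⟨hij.symm, Finset.mem_univ j⟩)).trans
    (Finset.dvd_prod_of_mem (fun i => ∏ j ∈ Finset.univ.erase i,
      (MvPolynomial.X i - MvPolynomial.X j : MvPolynomial (Fin (2 * g + 1)) k)) (Finset.mem_univ i))

end Pool.Agent.Results.MP_919cc8_ag.NonOrdinaryDivisor
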